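import Mathlib

/-!
The mobile general position number of the `k`-dimensional integer lattice is `2 ^ 2 ^ (k - 1)`.
-/

namespace Pool.Agent.Results.MP_903b9e_co.MobLattice

open Finset

variable {V : Type*}

/-- `S` is in general position in `G`: no three distinct vertices of `S` lie on a common
shortest path of `G`. -/
def GenPos (G : SimpleGraph V) (S : Set V) : Prop :=
  ∀ x ∈ S, ∀ y ∈ S, ∀ z ∈ S, x ≠ y → y ≠ z → x ≠ z →
    ¬ ∃ (a b : V) (p : G.Walk a b), p.length = G.dist a b ∧
      x ∈ p.support ∧ y ∈ p.support ∧ z ∈ p.support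

/-- A legal move takes one robot from its vertex `u` to an adjacent unoccupied vertex `v`,
provided that the new set of occupied vertices is again in general position. -/
def LegalMove (G : SimpleGraph V) (S T : Set V) : Prop :=
  ∃ u ∈ S, ∃ v, v ∉ S ∧ G.Adj u v ∧ T = insert v (S \ {u}) ∧ GenPos G T

/-- `S` is a mobile general position set: it is in general position, and some sequence `s 0 = S`,
`s 1`, ... in which each step is a legal move (or changes nothing, so that finite sequences of
legal moves are included) has every vertex occupied at some time. -/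
def Mobile (G : SimpleGraph V) (S : Set V) : Prop :=
  GenPos G S ∧ ∃ s : ℕ → Set V, s 0 = S ∧
    (∀ i, s (i + 1) = s i ∨ LegalMove G (s i) (s (i + 1))) ∧ ∀ v : V, ∃ i, v ∈ s i

/-- The lattice graph on `ℤ ^ k`: two vertices are adjacent when they differ by exactly `1` in
exactly one coordinate. -/
def lattice (k : ℕ) : SimpleGraph (Fin k → ℤ) where
  Adj x y := ∃ j, |x j - y j| = 1 ∧ ∀ i, i ≠ j → x i = y i
  symm := by
    constructor
    rintro x y ⟨j, h1, h2⟩
    exact ⟨j, by rw [abs_sub_comm]; exact h1, fun i hi => (h2 i hi).symm⟩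
  loopless := by
    constructor
    rintro x ⟨j, h1, -⟩
    simp at h1

/-! ### Distances -/

/-- The `ℓ₁` distance. -/
def l1 {k : ℕ} (x y : Fin k → ℤ) : ℕ := ∑ i, (x i - y i).natAbs

theorem l1_self {k : ℕ} (x : Fin k → ℤ) : l1 x x = 0 := by simp [l1]

theorem l1_comm {k : ℕ} (x y : Fin k → ℤ) : l1 x y = l1 y x := by
  unfold l1
  refine Finset.sum_congr rfl fun i _ => ?_
  omega

theorem l1_tri {k : ℕ} (x y z : Fin k → ℤ) : l1 x z ≤ l1 x y + l1 y z := by
  unfold l1
  rw [← Finset.sum_add_distrib]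
  refine Finset.sum_le_sum fun i _ => ?_
  omega

theorem l1_adj {k : ℕ} {x y : Fin k → ℤ} (h : (lattice k).Adj x y) : l1 x y = 1 := by
  obtain ⟨j, h1, h2⟩ := h
  unfold l1
  rw [Finset.sum_eq_single j]
  · rw [Int.abs_eq_natAbs] at h1
    exact_mod_cast h1
  · intro i _ hi
    rw [h2 i hi]; simp
  · simp

theorem l1_le_length {k : ℕ} {x y : Fin k → ℤ} (p : (lattice k).Walk x y) :
    l1 x y ≤ p.length := by
  induction p with
  | nil => simp [l1_self]
  | cons h p ih =>
    rename_i u v w
    have h1 := l1_tri u v w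
    have h2 := l1_adj h
    rw [SimpleGraph.Walk.length_cons]
    omega

theorem exists_walk {k : ℕ} (n : ℕ) : ∀ x y : Fin k → ℤ, l1 x y = n →
    ∃ p : (lattice k).Walk x y, p.length = n := by
  induction n with
  | zero =>
    intro x y h
    have : x = y := by
      funext i
      unfold l1 at h
      rw [Finset.sum_eq_zero_iff] at h
      have := h i (mem_univ i)
      omega
    subst this
    exact ⟨.nil, rfl⟩
  | succ n ih =>
    intro x y h
    have hne : ∃ i, x i ≠ y i := by
      by_contra hcon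
      push Not at hcon
      have : x = y := funext hcon
      subst this
      rw [l1_self] at h
      omega
    obtain ⟨i, hi⟩ := hne
    obtain ⟨e, he1, he2⟩ : ∃ e : ℤ, |e| = 1 ∧ (x i + e - y i).natAbs + 1 = (x i - y i).natAbs := by
      rcases lt_or_gt_of_ne hi with h | h
      · exact ⟨1, by simp, by omega⟩
      · exact ⟨-1, by simp, by omega⟩
    have hadj : (lattice k).Adj x (Function.update x i (x i + e)) := by
      refine ⟨i, ?_, ?_⟩
      · rw [Function.update_self]
        rw [show x i - (x i + e) = -e by ring, abs_neg]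
        exact he1
      · intro j hj
        rw [Function.update_of_ne hj]
    have hl : l1 (Function.update x i (x i + e)) y = n := by
      have h3 : l1 (Function.update x i (x i + e)) y + 1 = l1 x y := by
        unfold l1
        rw [← Finset.add_sum_erase _ _ (mem_univ i), ← Finset.add_sum_erase univ
          (fun j => (x j - y j).natAbs) (mem_univ i)]
        have h4 : ∑ j ∈ univ.erase i, (Function.update x i (x i + e) j - y j).natAbs
            = ∑ j ∈ univ.erase i, (x j - y j).natAbs := by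
          refine Finset.sum_congr rfl fun j hj => ?_
          rw [Function.update_of_ne (Finset.ne_of_mem_erase hj)]
        rw [h4, Function.update_self]
        omega
      omega
    obtain ⟨p, hp⟩ := ih _ y hl
    exact ⟨.cons hadj p, by rw [SimpleGraph.Walk.length_cons, hp]⟩

theorem dist_eq {k : ℕ} (x y : Fin k → ℤ) : (lattice k).dist x y = l1 x y := by
  apply le_antisymm
  · obtain ⟨p, hp⟩ := exists_walk _ x y rfl
    rw [← hp]
    exact SimpleGraph.dist_le p
  · have hr : (lattice k).Reachable x y := by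
      obtain ⟨p, hp⟩ := exists_walk _ x y rfl
      exact ⟨p⟩
    obtain ⟨p, hp⟩ := hr.exists_walk_length_eq_dist
    rw [← hp]
    exact l1_le_length p

/-! ### General position in the lattice -/

/-- `y` lies coordinatewise between `x` and `z`. -/
def Betw {k : ℕ} (x y z : Fin k → ℤ) : Prop :=
  ∀ i, (x i ≤ y i ∧ y i ≤ z i) ∨ (z i ≤ y i ∧ y i ≤ x i)

theorem betw_iff {k : ℕ} (x y z : Fin k → ℤ) : Betw x y z ↔ l1 x y + l1 y z ≤ l1 x z := by
  constructor
  · intro h
    unfold l1
    rw [← Finset.sum_add_distrib]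
    refine Finset.sum_le_sum fun i _ => ?_
    have := h i
    omega
  · intro h i
    by_contra hcon
    have hlt : l1 x z < l1 x y + l1 y z := by
      unfold l1
      rw [← Finset.sum_add_distrib]
      refine Finset.sum_lt_sum (fun j _ => by omega) ⟨i, mem_univ i, by omega⟩
    omega

theorem betw_getVert {k : ℕ} {a b : Fin k → ℤ} (p : (lattice k).Walk a b)
    (hp : p.length = (lattice k).dist a b) {i j l : ℕ} (hij : i ≤ j) (hjl : j ≤ l)
    (hl : l ≤ p.length) : Betw (p.getVert i) (p.getVert j) (p.getVert l) := by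
  rw [betw_iff]
  have key : ∀ (m n : ℕ), m ≤ n → n ≤ p.length → l1 (p.getVert m) (p.getVert n) ≤ n - m := by
    intro m n hmn hn
    obtain ⟨d, rfl⟩ := Nat.exists_eq_add_of_le hmn
    clear hmn
    induction d with
    | zero => simp [l1_self]
    | succ d ih =>
      have h1 := ih (by omega)
      have h2 := l1_adj (p.adj_getVert_succ (i := m + d) (by omega))
      have h3 := l1_tri (p.getVert m) (p.getVert (m + d)) (p.getVert (m + d + 1))
      rw [← add_assoc]
      omega
  have h0 := key 0 i (by omega) (by omega)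
  have h1 := key i j hij (by omega)
  have h2 := key j l hjl hl
  have h3 := key l p.length hl le_rfl
  rw [SimpleGraph.Walk.getVert_zero] at h0
  rw [SimpleGraph.Walk.getVert_length] at h3
  rw [dist_eq] at hp
  have h4 := l1_tri a (p.getVert i) b
  have h5 := l1_tri (p.getVert i) (p.getVert l) b
  omega

theorem genPos_iff {k : ℕ} (S : Set (Fin k → ℤ)) : GenPos (lattice k) S ↔
    ∀ x ∈ S, ∀ y ∈ S, ∀ z ∈ S, x ≠ y → y ≠ z → x ≠ z → ¬ Betw x y z := by
  constructor
  · intro h x hx y hy z hz hxy hyz hxz hb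
    apply h x hx y hy z hz hxy hyz hxz
    obtain ⟨p, hp⟩ := exists_walk _ x y rfl
    obtain ⟨q, hq⟩ := exists_walk _ y z rfl
    refine ⟨x, z, p.append q, ?_, ?_, ?_, ?_⟩
    · rw [SimpleGraph.Walk.length_append, hp, hq, dist_eq]
      exact le_antisymm ((betw_iff x y z).1 hb) (l1_tri x y z)
    · simp
    · rw [SimpleGraph.Walk.mem_support_append_iff]; simp
    · simp
  · rintro h x hx y hy z hz hxy hyz hxz ⟨a, b, p, hp, h1, h2, h3⟩
    rw [SimpleGraph.Walk.mem_support_iff_exists_getVert] at h1 h2 h3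
    obtain ⟨i, rfl, hi⟩ := h1
    obtain ⟨j, rfl, hj⟩ := h2
    obtain ⟨l, rfl, hl⟩ := h3
    rcases le_total i j with hij | hij <;> rcases le_total j l with hjl | hjl <;>
      rcases le_total i l with hil | hil
    · exact h _ hx _ hy _ hz hxy hyz hxz (betw_getVert p hp hij hjl hl)
    · exact h _ hx _ hy _ hz hxy hyz hxz (betw_getVert p hp hij hjl hl)
    · exact h _ hx _ hz _ hy hxz hyz.symm hxy (betw_getVert p hp hil hjl hj)
    · exact h _ hz _ hx _ hy hxz.symm hxy hyz.symm (betw_getVert p hp hil hij hj)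
    · exact h _ hy _ hx _ hz hxy.symm hxz hyz (betw_getVert p hp hij hil hl)
    · exact h _ hy _ hz _ hx hyz hxz.symm hxy.symm (betw_getVert p hp hjl hil hi)
    · exact h _ hz _ hy _ hx hyz.symm hxy.symm hxz.symm (betw_getVert p hp hjl hij hi)
    · exact h _ hz _ hy _ hx hyz.symm hxy.symm hxz.symm (betw_getVert p hp hjl hij hi)

/-! ### The upper bound (iterated Erdős–Szekeres) -/

theorem es {α : Type*} [LinearOrder α] (f : α → ℤ) (s : ℕ) (m : ℕ) : ∀ T : Finset α,
    (∀ U ⊆ T, U.card = m + 1 → ¬ MonotoneOn f U) → (∀ U ⊆ T, U.card = s + 1 → ¬ AntitoneOn f U) →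
    T.card ≤ m * s := by
  induction m with
  | zero =>
    intro T h1 _
    rw [zero_mul, Nat.le_zero, Finset.card_eq_zero]
    by_contra hne
    obtain ⟨x, hx⟩ := Finset.nonempty_iff_ne_empty.2 hne
    refine h1 {x} (by simpa using hx) (by simp) ?_
    intro a ha b hb _
    simp only [coe_singleton, Set.mem_singleton_iff] at ha hb
    rw [ha, hb]
  | succ m ih =>
    intro T h1 h2
    set M := T.filter (fun i => ∀ j ∈ T, j < i → f i < f j) with hM
    have hMs : M.card ≤ s := by
      by_contra hcon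
      push Not at hcon
      obtain ⟨U, hU, hUc⟩ := Finset.exists_subset_card_eq (s := M) (n := s + 1) (by omega)
      refine h2 U (hU.trans (Finset.filter_subset _ _)) hUc ?_
      intro a ha b hb hab
      rcases eq_or_lt_of_le hab with rfl | hab
      · exact le_rfl
      · have hb' := hU (Finset.mem_coe.1 hb)
        have ha' := hU (Finset.mem_coe.1 ha)
        rw [hM, Finset.mem_filter] at hb' ha'
        exact (hb'.2 a ha'.1 hab).le
    have hT' : (T \ M).card ≤ m * s := by
      apply ih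
      · intro U hU hUc hmono
        have hne : U.Nonempty := by rw [← Finset.card_pos]; omega
        have hmin := U.min'_mem hne
        have h3 := hU hmin
        rw [Finset.mem_sdiff, hM, Finset.mem_filter] at h3
        have h4 : ∃ j ∈ T, j < U.min' hne ∧ f j ≤ f (U.min' hne) := by
          by_contra hcon
          push Not at hcon
          exact h3.2 ⟨h3.1, hcon⟩
        obtain ⟨j, hjT, hj1, hj2⟩ := h4
        have hjU : j ∉ U := fun hj => absurd (U.min'_le j hj) (not_le.2 hj1)
        refine h1 (insert j U) ?_ ?_ ?_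
        · intro x hx
          rcases Finset.mem_insert.1 hx with rfl | hx
          · exact hjT
          · exact (Finset.mem_sdiff.1 (hU hx)).1
        · rw [Finset.card_insert_of_notMem hjU, hUc]
        · intro a ha b hb hab
          have ha0 := Finset.mem_insert.1 (Finset.mem_coe.1 ha)
          have hb0 := Finset.mem_insert.1 (Finset.mem_coe.1 hb)
          clear ha hb
          rcases ha0 with rfl | ha <;> rcases hb0 with rfl | hb
          · exact le_rfl
          · exact hj2.trans (hmono (Finset.mem_coe.2 hmin) (Finset.mem_coe.2 hb) (U.min'_le b hb))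
          · exact absurd (U.min'_le a ha) (not_le.2 (lt_of_le_of_lt hab hj1))
          · exact hmono (Finset.mem_coe.2 ha) (Finset.mem_coe.2 hb) hab
      · intro U hU
        exact h2 U (hU.trans Finset.sdiff_subset)
    have h5 := Finset.card_sdiff_add_card_eq_card (Finset.filter_subset
      (fun i => ∀ j ∈ T, j < i → f i < f j) T)
    rw [← hM] at h5
    calc T.card = (T \ M).card + M.card := h5.symm
      _ ≤ m * s + s := by omega
      _ = (m + 1) * s := by ring

theorem es_iter {α : Type*} [LinearOrder α] (n : ℕ) : ∀ (f : Fin n → α → ℤ) (T : Finset α),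
    2 ^ 2 ^ n < T.card → ∃ U ⊆ T, 2 < U.card ∧ ∀ i, MonotoneOn (f i) U ∨ AntitoneOn (f i) U := by
  induction n with
  | zero =>
    intro f T hT
    exact ⟨T, subset_rfl, by simpa using hT, fun i => i.elim0⟩
  | succ n ih =>
    intro f T hT
    have h1 : ∃ U ⊆ T, U.card = 2 ^ 2 ^ n + 1 ∧
        (MonotoneOn (f 0) U ∨ AntitoneOn (f 0) U) := by
      by_contra hcon
      push Not at hcon
      have h2 := es (f 0) (2 ^ 2 ^ n) (2 ^ 2 ^ n) T (fun U hU hc => (hcon U hU hc).1)
        (fun U hU hc => (hcon U hU hc).2)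
      rw [← pow_add, ← two_mul, ← pow_succ'] at h2
      omega
    obtain ⟨U, hU, hUc, hUm⟩ := h1
    obtain ⟨W, hW, hWc, hWm⟩ := ih (fun i => f i.succ) U (by omega)
    refine ⟨W, hW.trans hU, hWc, ?_⟩
    intro i
    refine Fin.cases ?_ hWm i
    have hWU : (W : Set α) ⊆ (U : Set α) := by exact_mod_cast hW
    rcases hUm with h | h
    · exact Or.inl (h.mono hWU)
    · exact Or.inr (h.mono hWU)

theorem upper_finset (n : ℕ) (T : Finset (Fin (n + 1) → ℤ))
    (hT : ∀ x ∈ T, ∀ y ∈ T, ∀ z ∈ T, x ≠ y → y ≠ z → x ≠ z → ¬ Betw x y z) :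
    T.card ≤ 2 ^ 2 ^ n := by
  by_contra hcon
  push Not at hcon
  -- use the lexicographic order
  obtain ⟨U, hU, hUc, hUm⟩ := es_iter (α := Lex (Fin (n + 1) → ℤ)) n
    (fun i x => ofLex x i.succ) (T.map (toLex.toEmbedding)) (by simpa using hcon)
  obtain ⟨a, ha, b, hb, c, hc, hab, hac, hbc⟩ := Finset.two_lt_card.1 hUc
  -- the first coordinate is monotone
  have h0 : MonotoneOn (fun x : Lex (Fin (n + 1) → ℤ) => ofLex x 0) (U : Set _) := by
    intro x _ y _ hxy
    rcases eq_or_lt_of_le hxy with rfl | hxy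
    · exact le_rfl
    · obtain ⟨i, hi1, hi2⟩ := hxy
      by_cases hi : i = 0
      · subst hi; exact hi2.le
      · exact (hi1 0 (Fin.pos_of_ne_zero hi)).le
  have hall : ∀ i : Fin (n + 1), MonotoneOn (fun x : Lex (Fin (n + 1) → ℤ) => ofLex x i) (U : Set _)
      ∨ AntitoneOn (fun x : Lex (Fin (n + 1) → ℤ) => ofLex x i) (U : Set _) := by
    intro i
    refine Fin.cases (Or.inl h0) (fun j => hUm j) i
  have key : ∀ x ∈ U, ∀ y ∈ U, ∀ z ∈ U, x ≠ y → y ≠ z → x ≠ z → x ≤ y → y ≤ z → False := by
    intro x hx y hy z hz hxy hyz hxz h1 h2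
    have hmem : ∀ w ∈ U, ofLex w ∈ T := by
      intro w hw
      have := hU hw
      rw [Finset.mem_map] at this
      obtain ⟨v, hv, rfl⟩ := this
      exact hv
    refine hT (ofLex x) (hmem x hx) (ofLex y) (hmem y hy) (ofLex z) (hmem z hz)
      (fun h => hxy (ofLex.injective h)) (fun h => hyz (ofLex.injective h))
      (fun h => hxz (ofLex.injective h)) ?_
    intro i
    rcases hall i with h | h
    · exact Or.inl ⟨h (Finset.mem_coe.2 hx) (Finset.mem_coe.2 hy) h1,
        h (Finset.mem_coe.2 hy) (Finset.mem_coe.2 hz) h2⟩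
    · exact Or.inr ⟨h (Finset.mem_coe.2 hy) (Finset.mem_coe.2 hz) h2,
        h (Finset.mem_coe.2 hx) (Finset.mem_coe.2 hy) h1⟩
  rcases le_total a b with h1 | h1 <;> rcases le_total b c with h2 | h2 <;>
    rcases le_total a c with h3 | h3
  · exact key a ha b hb c hc hab hbc hac h1 h2
  · exact key a ha b hb c hc hab hbc hac h1 h2
  · exact key a ha c hc b hb hac hbc.symm hab h3 h2
  · exact key c hc a ha b hb hac.symm hab hbc.symm h3 h1
  · exact key b hb a ha c hc hab.symm hac hbc h1 h3
  · exact key b hb c hc a ha hbc hac.symm hab.symm h2 h3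
  · exact key c hc b hb a ha hbc.symm hab.symm hac.symm h2 h1
  · exact key c hc b hb a ha hbc.symm hab.symm hac.symm h2 h1

theorem upper (n : ℕ) (S : Set (Fin (n + 1) → ℤ)) (hS : GenPos (lattice (n + 1)) S) :
    S.encard ≤ ((2 ^ 2 ^ n : ℕ) : ℕ∞) := by
  rw [genPos_iff] at hS
  by_contra hcon
  push Not at hcon
  obtain ⟨T, hT, hTc⟩ := Set.exists_subset_encard_eq (Order.add_one_le_of_lt hcon)
  have hfin : T.Finite := by
    rw [← Set.encard_lt_top_iff, hTc]
    exact_mod_cast ENat.natCast_lt_top (2 ^ 2 ^ n + 1)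
  have h1 := upper_finset n hfin.toFinset (by
    intro x hx y hy z hz
    rw [Set.Finite.mem_toFinset] at hx hy hz
    exact hS x (hT hx) y (hT hy) z (hT hz))
  rw [hfin.encard_eq_coe_toFinset_card] at hTc
  have h2 : hfin.toFinset.card = 2 ^ 2 ^ n + 1 := by exact_mod_cast hTc
  omega

/-! ### The configuration -/

/-- the sign in coordinate `j` attached to digit position `p` -/
def sg {n : ℕ} (p : ℕ) (j : Fin (n + 1)) : ℤ :=
  if j = 0 then 1 else if p.testBit (j.val - 1) then -1 else 1

theorem sg_cases {n : ℕ} (p : ℕ) (j : Fin (n + 1)) : sg p j = 1 ∨ sg p j = -1 := by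
  unfold sg
  split_ifs <;> simp

theorem sg_zero {n : ℕ} (p : ℕ) : sg p (0 : Fin (n + 1)) = 1 := by simp [sg]

theorem sg_inj {n : ℕ} {p q : ℕ} (hp : p < 2 ^ n) (hq : q < 2 ^ n)
    (h : ∀ j : Fin (n + 1), sg p j = sg q j) : p = q := by
  apply Nat.eq_of_testBit_eq
  intro i
  by_cases hi : i < n
  · have := h ⟨i + 1, by omega⟩
    unfold sg at this
    have h0 : (⟨i + 1, by omega⟩ : Fin (n + 1)) ≠ 0 := by
      intro h
      have := congrArg Fin.val h
      simp at this
    rw [if_neg h0, if_neg h0] at this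
    simp only [Nat.add_sub_cancel] at this
    cases h1 : p.testBit i <;> cases h2 : q.testBit i <;> rw [h1, h2] at this <;>
      first
      | rfl
      | (exfalso; revert this; norm_num)
  · push Not at hi
    have h2 : 2 ^ n ≤ 2 ^ i := Nat.pow_le_pow_right (by norm_num) hi
    rw [Nat.testBit_eq_false_of_lt (by omega), Nat.testBit_eq_false_of_lt (by omega)]

/-- the `j`-th coordinate of the robot indexed by the finite set `A` -/
def X {n : ℕ} (A : Finset ℕ) (j : Fin (n + 1)) : ℤ := ∑ p ∈ A, 2 * sg p j * 3 ^ p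

theorem X_bound {n : ℕ} (j : Fin (n + 1)) (p : ℕ) : ∀ A : Finset ℕ, A ⊆ range p →
    ∀ B : Finset ℕ, B ⊆ range p → |X A j - X B j| ≤ 3 ^ p - 1 := by
  induction p with
  | zero =>
    intro A hA B hB
    rw [range_zero, subset_empty] at hA hB
    subst hA hB
    simp
  | succ p ih =>
    intro A hA B hB
    have key : ∀ C : Finset ℕ, C ⊆ range (p + 1) → C.erase p ⊆ range p ∧
        (X C j = X (C.erase p) j ∨ X C j = X (C.erase p) j + 2 * sg p j * 3 ^ p) := by
      intro C hC
      refine ⟨?_, ?_⟩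
      · intro x hx
        have h1 := Finset.mem_range.1 (hC (Finset.mem_of_mem_erase hx))
        have h2 := Finset.ne_of_mem_erase hx
        rw [Finset.mem_range]
        omega
      · by_cases hp : p ∈ C
        · right
          unfold X
          rw [Finset.sum_erase_add _ _ hp]
        · left
          rw [Finset.erase_eq_of_notMem hp]
    obtain ⟨hA1, hA2⟩ := key A hA
    obtain ⟨hB1, hB2⟩ := key B hB
    have h3 := ih _ hA1 _ hB1
    have h4 : (0 : ℤ) < 3 ^ p := by positivity
    rw [abs_le] at h3 ⊢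
    rw [pow_succ]
    rcases sg_cases p j with h | h <;> rw [h] at hA2 hB2 <;>
      rcases hA2 with hA2 | hA2 <;> rcases hB2 with hB2 | hB2 <;> rw [hA2, hB2] <;>
      constructor <;> linarith [h3.1, h3.2]

theorem X_top {n : ℕ} (j : Fin (n + 1)) (p m : ℕ) (hpm : p < m) : ∀ A B : Finset ℕ,
    A ⊆ range m → B ⊆ range m → p ∈ A → p ∉ B → (∀ q, p < q → q < m → (q ∈ A ↔ q ∈ B)) →
    2 ≤ sg p j * (X A j - X B j) := by
  intro A B hA hB hpA hpB hq
  -- split off the parts below, at and above `p`
  have hsplit : X A j - X B j = 2 * sg p j * 3 ^ p + (X (A.filter (· < p)) j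
      - X (B.filter (· < p)) j) := by
    have h1 : X A j = X (A.filter (· < p)) j + X (A.filter (fun x => ¬ x < p)) j := by
      unfold X
      rw [Finset.sum_filter_add_sum_filter_not]
    have h2 : X B j = X (B.filter (· < p)) j + X (B.filter (fun x => ¬ x < p)) j := by
      unfold X
      rw [Finset.sum_filter_add_sum_filter_not]
    have h3 : A.filter (fun x => ¬ x < p) = insert p (B.filter (fun x => ¬ x < p)) := by
      ext x
      rw [Finset.mem_insert, Finset.mem_filter, Finset.mem_filter]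
      constructor
      · rintro ⟨hx1, hx2⟩
        rcases eq_or_ne x p with rfl | hne
        · exact Or.inl rfl
        · exact Or.inr ⟨(hq x (by omega) (Finset.mem_range.1 (hA hx1))).1 hx1, hx2⟩
      · rintro (rfl | ⟨hx1, hx2⟩)
        · exact ⟨hpA, lt_irrefl _⟩
        · have hne : x ≠ p := by rintro rfl; exact hpB hx1
          exact ⟨(hq x (by omega) (Finset.mem_range.1 (hB hx1))).2 hx1, hx2⟩
    have h4 : X (A.filter (fun x => ¬ x < p)) j = 2 * sg p j * 3 ^ p +
        X (B.filter (fun x => ¬ x < p)) j := by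
      rw [h3]
      unfold X
      rw [Finset.sum_insert]
      rw [Finset.mem_filter]
      exact fun h => hpB h.1
    rw [h1, h2, h4]
    ring
  have hsub : ∀ C : Finset ℕ, C.filter (· < p) ⊆ range p := by
    intro C x hx
    rw [Finset.mem_range]
    exact (Finset.mem_filter.1 hx).2
  have hb := X_bound j p _ (hsub A) _ (hsub B)
  rw [abs_le] at hb
  have h4 : (1 : ℤ) ≤ 3 ^ p := one_le_pow₀ (by norm_num)
  rw [hsplit]
  rcases sg_cases p j with h | h <;> rw [h] <;> linarith [hb.1, hb.2]

/-- The position of robot `A` when its displacement is `w A`. -/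
def pos {n : ℕ} (w : Finset ℕ → Fin (n + 1) → ℤ) (A : Finset ℕ) : Fin (n + 1) → ℤ :=
  fun j => X A j + w A j

/-- The displacements differ by at most one in each coordinate. -/
def Tight {n : ℕ} (w : Finset ℕ → Fin (n + 1) → ℤ) : Prop :=
  ∀ A B j, |w A j - w B j| ≤ 1

theorem pos_diff {n : ℕ} {w : Finset ℕ → Fin (n + 1) → ℤ} (hw : Tight w) {A B : Finset ℕ}
    (hA : A ⊆ range (2 ^ n)) (hB : B ⊆ range (2 ^ n)) (hAB : A ≠ B) :
    ∃ p < 2 ^ n, (p ∈ A ∧ p ∉ B ∧ ∀ j, 0 < sg p j * (pos w A j - pos w B j)) ∨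
      (p ∈ B ∧ p ∉ A ∧ ∀ j, 0 < sg p j * (pos w B j - pos w A j)) := by
  have hne : (symmDiff A B).Nonempty := by
    rw [Finset.nonempty_iff_ne_empty]
    intro h
    exact hAB (symmDiff_eq_bot.1 h)
  set p := (symmDiff A B).max' hne with hp
  have hpm := (symmDiff A B).max'_mem hne
  rw [← hp] at hpm
  have hq : ∀ q, p < q → (q ∈ A ↔ q ∈ B) := by
    intro q hq
    by_contra hcon
    have : q ∈ symmDiff A B := by
      rw [Finset.mem_symmDiff]
      tauto
    have := (symmDiff A B).le_max' q this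
    omega
  rw [Finset.mem_symmDiff] at hpm
  rcases hpm with ⟨h1, h2⟩ | ⟨h1, h2⟩
  · have hplt := Finset.mem_range.1 (hA h1)
    refine ⟨p, hplt, Or.inl ⟨h1, h2, fun j => ?_⟩⟩
    have h3 := X_top j p (2 ^ n) hplt A B hA hB h1 h2 (fun q h _ => hq q h)
    have h4 := hw A B j
    rw [abs_le] at h4
    unfold pos
    rcases sg_cases p j with h | h <;> rw [h] at h3 ⊢ <;> linarith [h4.1, h4.2]
  · have hplt := Finset.mem_range.1 (hB h1)
    refine ⟨p, hplt, Or.inr ⟨h1, h2, fun j => ?_⟩⟩
    have h3 := X_top j p (2 ^ n) hplt B A hB hA h1 h2 (fun q h _ => (hq q h).symm)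
    have h4 := hw A B j
    rw [abs_le] at h4
    unfold pos
    rcases sg_cases p j with h | h <;> rw [h] at h3 ⊢ <;> linarith [h4.1, h4.2]

theorem pos_inj {n : ℕ} {w : Finset ℕ → Fin (n + 1) → ℤ} (hw : Tight w) {A B : Finset ℕ}
    (hA : A ⊆ range (2 ^ n)) (hB : B ⊆ range (2 ^ n)) (hAB : A ≠ B) : pos w A ≠ pos w B := by
  intro h
  obtain ⟨p, -, ⟨-, -, h1⟩ | ⟨-, -, h1⟩⟩ := pos_diff hw hA hB hAB
  · have := h1 0
    rw [h] at this
    simp at this
  · have := h1 0
    rw [h] at this
    simp at this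

theorem not_betw {n : ℕ} {w : Finset ℕ → Fin (n + 1) → ℤ} (hw : Tight w) {A B C : Finset ℕ}
    (hA : A ⊆ range (2 ^ n)) (hB : B ⊆ range (2 ^ n)) (hC : C ⊆ range (2 ^ n)) (hAB : A ≠ B)
    (hBC : B ≠ C) : ¬ Betw (pos w A) (pos w B) (pos w C) := by
  intro hb
  obtain ⟨p, hp, h1⟩ := pos_diff hw hA hB hAB
  obtain ⟨q, hq, h2⟩ := pos_diff hw hB hC hBC
  have hb0 := hb 0
  rcases h1 with ⟨h1, h1', h1''⟩ | ⟨h1, h1', h1''⟩ <;>
    rcases h2 with ⟨h2, h2', h2''⟩ | ⟨h2, h2', h2''⟩
  · have hpq : p = q := by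
      apply sg_inj hp hq
      intro j
      have a1 := h1'' j
      have a2 := h2'' j
      have a3 := hb j
      rcases sg_cases p j with h | h <;> rcases sg_cases q j with h' | h' <;>
        rw [h, h'] <;> rw [h] at a1 <;> rw [h'] at a2 <;> exfalso <;> omega
    subst hpq
    exact h1' h2
  · have a1 := h1'' 0
    have a2 := h2'' 0
    rw [sg_zero] at a1 a2
    omega
  · have a1 := h1'' 0
    have a2 := h2'' 0
    rw [sg_zero] at a1 a2
    omega
  · have hpq : p = q := by
      apply sg_inj hp hq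
      intro j
      have a1 := h1'' j
      have a2 := h2'' j
      have a3 := hb j
      rcases sg_cases p j with h | h <;> rcases sg_cases q j with h' | h' <;>
        rw [h, h'] <;> rw [h] at a1 <;> rw [h'] at a2 <;> exfalso <;> omega
    subst hpq
    exact h2' h1

/-- The set of occupied vertices. -/
def conf {n : ℕ} (w : Finset ℕ → Fin (n + 1) → ℤ) : Set (Fin (n + 1) → ℤ) :=
  {x | ∃ A ⊆ range (2 ^ n), pos w A = x}

theorem genPos_conf {n : ℕ} {w : Finset ℕ → Fin (n + 1) → ℤ} (hw : Tight w) :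
    GenPos (lattice (n + 1)) (conf w) := by
  rw [genPos_iff]
  rintro _ ⟨A, hA, rfl⟩ _ ⟨B, hB, rfl⟩ _ ⟨C, hC, rfl⟩ hAB hBC _
  exact not_betw hw hA hB hC (fun h => hAB (h ▸ rfl)) (fun h => hBC (h ▸ rfl))

theorem encard_conf {n : ℕ} {w : Finset ℕ → Fin (n + 1) → ℤ} (hw : Tight w) :
    (conf w).encard = ((2 ^ 2 ^ n : ℕ) : ℕ∞) := by
  have h1 : conf w = pos w '' ((range (2 ^ n)).powerset : Set (Finset ℕ)) := by
    ext x
    constructor
    · rintro ⟨A, hA, rfl⟩
      exact ⟨A, Finset.mem_coe.2 (Finset.mem_powerset.2 hA), rfl⟩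
    · rintro ⟨A, hA, rfl⟩
      exact ⟨A, Finset.mem_powerset.1 (Finset.mem_coe.1 hA), rfl⟩
  rw [h1, Set.InjOn.encard_image, Set.encard_coe_eq_coe_finsetCard, Finset.card_powerset,
    Finset.card_range]
  intro A hA B hB h
  by_contra hne
  rw [Finset.mem_coe, Finset.mem_powerset] at hA hB
  exact pos_inj hw hA hB hne h

/-! ### Moving the configuration -/

/-- Changing the displacement of one robot by one unit in one coordinate is a legal move. -/
theorem move_one {n : ℕ} {w w' : Finset ℕ → Fin (n + 1) → ℤ} (hw : Tight w) (hw' : Tight w')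
    {A : Finset ℕ} (hA : A ⊆ range (2 ^ n)) (h1 : ∀ B, B ≠ A → w' B = w B)
    (h2 : (lattice (n + 1)).Adj (w A) (w' A)) :
    LegalMove (lattice (n + 1)) (conf w) (conf w') := by
  have hposB : ∀ B, B ≠ A → pos w' B = pos w B := by
    intro B hB
    unfold pos
    rw [h1 B hB]
  have hadj : (lattice (n + 1)).Adj (pos w A) (pos w' A) := by
    obtain ⟨j, h3, h4⟩ := h2
    refine ⟨j, ?_, ?_⟩
    · unfold pos
      rw [show X A j + w A j - (X A j + w' A j) = w A j - w' A j by ring]
      exact h3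
    · intro i hi
      unfold pos
      rw [h4 i hi]
  refine ⟨pos w A, ⟨A, hA, rfl⟩, pos w' A, ?_, hadj, ?_, genPos_conf hw'⟩
  · rintro ⟨B, hB, hBA⟩
    by_cases h : B = A
    · subst h
      rw [hBA] at hadj
      exact (lattice (n + 1)).loopless.irrefl _ hadj
    · rw [← hposB B h] at hBA
      exact pos_inj hw' hB hA h hBA
  · ext x
    constructor
    · rintro ⟨B, hB, rfl⟩
      by_cases h : B = A
      · subst h
        exact Or.inl rfl
      · right
        rw [hposB B h]
        refine ⟨⟨B, hB, rfl⟩, ?_⟩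
        exact fun h' => pos_inj hw hB hA h h'
    · rintro (rfl | ⟨⟨B, hB, rfl⟩, hne⟩)
      · exact ⟨A, hA, rfl⟩
      · have h : B ≠ A := by
          rintro rfl
          exact hne rfl
        exact ⟨B, hB, hposB B h⟩

/-- constant displacement -/
def cst {n : ℕ} (v : Fin (n + 1) → ℤ) : Finset ℕ → Fin (n + 1) → ℤ := fun _ => v

theorem tight_cst {n : ℕ} (v : Fin (n + 1) → ℤ) : Tight (cst v) := by
  intro A B j
  simp [cst]

open Classical in
/-- Partial translation: robots in `D` have displacement `v'`, others `v`. -/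
noncomputable def part {n : ℕ} (v v' : Fin (n + 1) → ℤ) (D : Finset (Finset ℕ)) :
    Finset ℕ → Fin (n + 1) → ℤ := fun A => if A ∈ D then v' else v

theorem tight_part {n : ℕ} {v v' : Fin (n + 1) → ℤ} (h : (lattice (n + 1)).Adj v v')
    (D : Finset (Finset ℕ)) : Tight (part v v' D) := by
  have h1 : ∀ i, |v i - v' i| ≤ 1 := by
    obtain ⟨j, h1, h2⟩ := h
    intro i
    by_cases hi : i = j
    · subst hi; exact h1.le
    · rw [h2 i hi]; simp
  intro A B j
  unfold part
  split_ifs
  · simp
  · rw [abs_sub_comm]; exact h1 j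
  · exact h1 j
  · simp

theorem reach_part {n : ℕ} {v v' : Fin (n + 1) → ℤ} (h : (lattice (n + 1)).Adj v v')
    (D : Finset (Finset ℕ)) : D ⊆ (range (2 ^ n)).powerset →
    Relation.ReflTransGen (LegalMove (lattice (n + 1))) (conf (part v v' ∅))
      (conf (part v v' D)) := by
  classical
  induction D using Finset.induction_on with
  | empty => intro _; exact .refl
  | insert A D hAD ih =>
    intro hD
    rw [Finset.insert_subset_iff] at hD
    refine (ih hD.2).tail ?_
    refine move_one (A := A) (tight_part h D) (tight_part h _) (Finset.mem_powerset.1 hD.1) ?_ ?_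
    · intro B hB
      unfold part
      simp [hB]
    · unfold part
      simp [hAD, h]

theorem reach_adj {n : ℕ} {v v' : Fin (n + 1) → ℤ} (h : (lattice (n + 1)).Adj v v') :
    Relation.ReflTransGen (LegalMove (lattice (n + 1))) (conf (cst v)) (conf (cst v')) := by
  have h1 := reach_part h _ (Finset.Subset.refl _)
  have h2 : conf (part v v' ∅) = conf (cst v) := by
    unfold conf pos part cst
    simp
  have h3 : conf (part v v' (range (2 ^ n)).powerset) = conf (cst v') := by
    ext x
    constructor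
    · rintro ⟨A, hA, rfl⟩
      refine ⟨A, hA, ?_⟩
      unfold pos part cst
      simp [Finset.mem_powerset, hA]
    · rintro ⟨A, hA, rfl⟩
      refine ⟨A, hA, ?_⟩
      unfold pos part cst
      simp [Finset.mem_powerset, hA]
  rwa [h2, h3] at h1

theorem reach {n : ℕ} (v v' : Fin (n + 1) → ℤ) :
    Relation.ReflTransGen (LegalMove (lattice (n + 1))) (conf (cst v)) (conf (cst v')) := by
  obtain ⟨p, -⟩ := exists_walk _ v v' rfl
  induction p with
  | nil => exact .refl
  | cons h p ih => exact (reach_adj h).trans ih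

/-! ### Assembling an infinite sequence -/

/-- `RI R m a b`: there is a chain of `m` steps of `R` from `a` to `b`. -/
def RI {α : Type*} (R : α → α → Prop) : ℕ → α → α → Prop
  | 0, a, b => a = b
  | m + 1, a, c => ∃ b, R a b ∧ RI R m b c

theorem RI_of_reflTransGen {α : Type*} {R : α → α → Prop} {a b : α}
    (h : Relation.ReflTransGen R a b) : ∃ m, RI R m a b := by
  induction h using Relation.ReflTransGen.head_induction_on with
  | refl => exact ⟨0, rfl⟩
  | head h1 _ ih =>
    obtain ⟨m, hm⟩ := ih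
    exact ⟨m + 1, _, h1, hm⟩

theorem assemble {α : Type*} (R : α → α → Prop) (c : ℕ → α)
    (hc : ∀ n, Relation.ReflTransGen R (c n) (c (n + 1))) :
    ∃ s : ℕ → α, s 0 = c 0 ∧ (∀ i, s (i + 1) = s i ∨ R (s i) (s (i + 1))) ∧
      ∀ n, ∃ i, s i = c n := by
  -- states
  let St := {p : ℕ × ℕ × α // RI R p.2.1 p.2.2 (c (p.1 + 1))}
  have hnext : ∀ p : St, ∃ q : St, (q.1.2.2 = p.1.2.2 ∨ R p.1.2.2 q.1.2.2) ∧
      (p.1.2.1 = 0 → q.1.1 = p.1.1 + 1 ∧ q.1.2.2 = c (p.1.1 + 1)) ∧
      (p.1.2.1 ≠ 0 → q.1.1 = p.1.1 ∧ q.1.2.1 + 1 = p.1.2.1) := by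
    rintro ⟨⟨n, m, a⟩, hp⟩
    cases m with
    | zero =>
      have ha : a = c (n + 1) := hp
      obtain ⟨m', hm'⟩ := RI_of_reflTransGen (hc (n + 1))
      refine ⟨⟨(n + 1, m', c (n + 1)), hm'⟩, Or.inl ha.symm, fun _ => ⟨rfl, rfl⟩, fun h => ?_⟩
      exact absurd rfl h
    | succ m =>
      obtain ⟨b, hb, hb'⟩ := hp
      refine ⟨⟨(n, m, b), hb'⟩, Or.inr hb, fun h => ?_, fun _ => ⟨rfl, rfl⟩⟩
      exact absurd h (Nat.succ_ne_zero m)
  choose nx hnx1 hnx2 hnx3 using hnext
  obtain ⟨m0, hm0⟩ := RI_of_reflTransGen (hc 0)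
  let st : ℕ → St := fun i => nx^[i] ⟨(0, m0, c 0), hm0⟩
  have hst : ∀ i, st (i + 1) = nx (st i) := by
    intro i
    exact Function.iterate_succ_apply' nx i _
  refine ⟨fun i => (st i).1.2.2, rfl, ?_, ?_⟩
  · intro i
    change (st (i + 1)).1.2.2 = (st i).1.2.2 ∨ R (st i).1.2.2 (st (i + 1)).1.2.2
    rw [hst]
    exact hnx1 (st i)
  · have hvis : ∀ n, ∃ i, (st i).1.1 = n ∧ (st i).1.2.2 = c n := by
      intro n
      induction n with
      | zero => exact ⟨0, rfl, rfl⟩
      | succ n ih =>
        obtain ⟨i, hi, -⟩ := ih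
        have hgo : ∀ m i, (st i).1.1 = n → (st i).1.2.1 = m →
            ∃ i', (st i').1.1 = n ∧ (st i').1.2.1 = 0 := by
          intro m
          induction m with
          | zero => intro i h1 h2; exact ⟨i, h1, h2⟩
          | succ m ihm =>
            intro i h1 h2
            have h3 := hnx3 (st i) (by omega)
            rw [← hst] at h3
            exact ihm (i + 1) (by omega) (by omega)
        obtain ⟨i', h1, h2⟩ := hgo _ i hi rfl
        have h3 := hnx2 (st i') h2
        rw [← hst, h1] at h3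
        exact ⟨i' + 1, h3.1, h3.2⟩
    intro n
    obtain ⟨i, -, hi⟩ := hvis n
    exact ⟨i, hi⟩

/-- **Main theorem.** For every `k ≥ 1`, the largest size of a mobile general position set of the
lattice graph on `ℤ ^ k` is `2 ^ 2 ^ (k - 1)`. -/
theorem result (k : ℕ) (hk : 1 ≤ k) :
    IsGreatest {N : ℕ∞ | ∃ S : Set (Fin k → ℤ), Mobile (lattice k) S ∧ S.encard = N}
      ((2 ^ 2 ^ (k - 1) : ℕ) : ℕ∞) := by
  obtain ⟨n, rfl⟩ : ∃ n, k = n + 1 := ⟨k - 1, by omega⟩
  rw [Nat.add_sub_cancel]
  constructor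
  · obtain ⟨t, ht⟩ := exists_surjective_nat (Fin (n + 1) → ℤ)
    refine ⟨conf (cst (t 0)), ⟨genPos_conf (tight_cst _), ?_⟩, encard_conf (tight_cst _)⟩
    obtain ⟨s, hs0, hs1, hs2⟩ := assemble (LegalMove (lattice (n + 1)))
      (fun i => conf (cst (t i))) (fun i => reach _ _)
    refine ⟨s, hs0, hs1, ?_⟩
    intro v
    obtain ⟨m, rfl⟩ := ht v
    obtain ⟨i, hi⟩ := hs2 m
    refine ⟨i, ?_⟩
    rw [hi]
    refine ⟨∅, by simp, ?_⟩
    unfold pos X cst
    simp
  · rintro N ⟨S, hS, rfl⟩
    exact upper n S hS.1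

end Pool.Agent.Results.MP_903b9e_co.MobLattice
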